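import Pool.Agent.Helper99.Ric.FDLIMC

set_option autoImplicit false

/-!
# Ric, module FDLIM
-/

open scoped ContDiff Topology

noncomputable section

namespace RicP

/-- the theta series on a complex line -/
def fdlim_theta (k : ℕ) (L x₀ a β : ℝ) (t : ℂ) : ℂ := ∑' m : ℤ, fdlim_term k L x₀ a β m t

theorem fdlim_theta_spec {k : ℕ} (hk : 1 ≤ k) (hk4 : k ≤ 4) {L : ℝ} (hL : 0 < L)
    (hL1 : L ≤ 1 / 10) {a : ℝ} (ha : |a| * L ≤ 1 / 7) (x₀ : ℝ) {β : ℝ} (hβ : |β| ≤ 2) :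
    DifferentiableOn ℂ (fdlim_theta k L x₀ a β) (Metric.ball 0 (1 / 8)) ∧
    ∀ t ∈ Metric.ball (0 : ℂ) (1 / 8), ‖fdlim_theta k L x₀ a β t - 1‖ ≤ 4 / 3 * L := by
  obtain ⟨hq0, hq1⟩ := fdlim_q hL hL1
  set q := Real.exp (-(3 / L)) with hq
  have hq2 : q ≤ 1 / 30 := by linarith
  have hq3 : q < 1 := by linarith
  have hsum := fdlim_hs hq0 hq3
  have hle : ∀ m : ℤ, ∀ t ∈ Metric.ball (0 : ℂ) (1 / 8), ‖fdlim_term k L x₀ a β m t‖ ≤
      (if m = 0 then 0 else q ^ m.natAbs) + (if m = 0 then 1 else 0) := by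
    intro m t ht
    refine (fdlim_term_le hk hk4 hL ha x₀ hβ m ht).trans ?_
    split_ifs with h
    · subst h; simp
    · simp [hq]
  have hs2 : Summable (fun m : ℤ => (if m = 0 then (0 : ℝ) else q ^ m.natAbs) +
      (if m = 0 then 1 else 0)) :=
    hsum.summable.add (hasSum_ite_eq (0 : ℤ) (1 : ℝ)).summable
  have h0 : ∀ t : ℂ, fdlim_term k L x₀ a β 0 t = 1 := by
    intro t
    unfold fdlim_term
    simp
  constructor
  · refine Complex.differentiableOn_tsum_of_summable_norm hs2 ?_ Metric.isOpen_ball hle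
    intro m t ht
    obtain ⟨hz, -, -⟩ := fdlim_w _ (fdlim_bt hβ ht)
    unfold fdlim_term
    have hw : DifferentiableAt ℂ (fun t : ℂ => (1 + (β : ℂ) * t)⁻¹) t :=
      ((differentiableAt_const _).add ((differentiableAt_const _).mul differentiableAt_id)).inv hz
    refine DifferentiableAt.differentiableWithinAt ?_
    refine DifferentiableAt.mul ?_ ?_
    · exact ((differentiableAt_const _).mul hw).cexp
    · refine DifferentiableAt.ccos ?_
      exact (differentiableAt_const _).mul ((differentiableAt_const _).add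
        (((differentiableAt_const _).mul differentiableAt_id).mul hw))
  · intro t ht
    have hst : Summable (fun m : ℤ => fdlim_term k L x₀ a β m t) :=
      Summable.of_norm_bounded hs2 fun m => hle m t ht
    have h1 : fdlim_theta k L x₀ a β t - 1 =
        ∑' m : ℤ, (fdlim_term k L x₀ a β m t - if m = 0 then 1 else 0) := by
      rw [hst.tsum_sub (hasSum_ite_eq (0 : ℤ) (1 : ℂ)).summable, tsum_ite_eq]
      rfl
    rw [h1]
    have h2 : ∀ m : ℤ, ‖fdlim_term k L x₀ a β m t - if m = 0 then 1 else 0‖ ≤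
        if m = 0 then 0 else q ^ m.natAbs := by
      intro m
      split_ifs with h
      · subst h; rw [h0]; simp
      · rw [sub_zero]; exact fdlim_term_le hk hk4 hL ha x₀ hβ m ht
    refine (tsum_of_norm_bounded hsum h2).trans ?_
    have h3 : q / (1 - q) ≤ 2 * q := by
      rw [div_le_iff₀ (by linarith)]
      nlinarith
    linarith

/-- `sinh z / z - 1` -/
theorem fdlim_sinh {z : ℂ} (hz : z ≠ 0) (hz1 : ‖z‖ ≤ 1) :
    ‖Complex.sinh z / z - 1‖ ≤ ‖z‖ := by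
  have h1 := Complex.norm_exp_sub_one_sub_id_le hz1
  have h2 := Complex.norm_exp_sub_one_sub_id_le (x := -z) (by rwa [norm_neg])
  rw [norm_neg] at h2
  have h3 : Complex.sinh z / z - 1 =
      ((Complex.exp z - 1 - z) - (Complex.exp (-z) - 1 - -z)) / (2 * z) := by
    unfold Complex.sinh
    field_simp
    ring
  rw [h3, norm_div, norm_mul, show ‖(2 : ℂ)‖ = 2 by simp]
  have h4 : 0 < ‖z‖ := norm_pos_iff.2 hz
  rw [div_le_iff₀ (by positivity)]
  have h5 := norm_sub_le (Complex.exp z - 1 - z) (Complex.exp (-z) - 1 - -z)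
  nlinarith

theorem fdlim_log {z : ℂ} {δ : ℝ} (hz : ‖z - 1‖ ≤ δ) (hδ : δ ≤ 1 / 2) :
    z ∈ Complex.slitPlane ∧ ‖Complex.log z‖ ≤ 3 / 2 * δ := by
  have h1 : z = 1 + (z - 1) := by ring
  constructor
  · rw [h1]
    exact Complex.mem_slitPlane_of_norm_lt_one (by linarith)
  · have := Complex.norm_log_one_add_half_le_self (z := z - 1) (by linarith)
    rw [← h1] at this
    linarith

/-- `log (sinh(jL'/2)/(jL'/2))` on a complex line -/
def fdlim_S (j : ℕ) (L β : ℝ) (t : ℂ) : ℂ :=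
  Complex.sinh ((j : ℂ) * (L * (1 + β * t)) / 2) / ((j : ℂ) * (L * (1 + β * t)) / 2)

theorem fdlim_S_spec {j : ℕ} (hj : 1 ≤ j) (hj4 : j ≤ 4) {L : ℝ} (hL : 0 < L)
    (hL1 : L ≤ 1 / 10) {β : ℝ} (hβ : |β| ≤ 2) :
    DifferentiableOn ℂ (fdlim_S j L β) (Metric.ball 0 (1 / 8)) ∧
    ∀ t ∈ Metric.ball (0 : ℂ) (1 / 8), ‖fdlim_S j L β t - 1‖ ≤ 5 / 2 * L := by
  have hjp : (0 : ℝ) < j := by exact_mod_cast hj
  have hj4' : (j : ℝ) ≤ 4 := by exact_mod_cast hj4
  have hjc : (j : ℂ) ≠ 0 := by exact_mod_cast hjp.ne'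
  have hLc : (L : ℂ) ≠ 0 := by exact_mod_cast hL.ne'
  have hne : ∀ t ∈ Metric.ball (0 : ℂ) (1 / 8), (j : ℂ) * (L * (1 + β * t)) / 2 ≠ 0 := by
    intro t ht
    obtain ⟨hz, -, -⟩ := fdlim_w _ (fdlim_bt hβ ht)
    exact div_ne_zero (mul_ne_zero hjc (mul_ne_zero hLc hz)) two_ne_zero
  constructor
  · intro t ht
    refine DifferentiableAt.differentiableWithinAt ?_
    unfold fdlim_S
    have hd : DifferentiableAt ℂ (fun t : ℂ => (j : ℂ) * (L * (1 + β * t)) / 2) t := by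
      fun_prop
    exact hd.csinh.div hd (hne t ht)
  · intro t ht
    have h1 : ‖(j : ℂ) * (L * (1 + β * t)) / 2‖ ≤ 5 / 2 * L := by
      rw [norm_div, norm_mul, norm_mul, Complex.norm_real, Real.norm_eq_abs, abs_of_pos hL,
        Complex.norm_natCast, show ‖(2 : ℂ)‖ = 2 by simp]
      have h2 : ‖1 + (β : ℂ) * t‖ ≤ 5 / 4 := by
        have := norm_add_le (1 : ℂ) (β * t)
        rw [norm_one] at this
        linarith [fdlim_bt hβ ht]
      rw [div_le_iff₀ (by norm_num)]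
      calc (j : ℝ) * (L * ‖1 + (β : ℂ) * t‖) ≤ 4 * (L * (5 / 4)) := by gcongr
        _ = 5 / 2 * L * 2 := by ring
    exact (fdlim_sinh (hne t ht) (by linarith)).trans h1

theorem fdlim_thd (k : ℕ) {L : ℝ} (hL : 0 < L) (T α β σ t : ℝ) (h : 1 + β * t ≠ 0) :
    ((thd k ((L, T) + t • (α • (0, σ) + β • (L, T))) : ℝ) : ℂ) =
      fdlim_theta k L (T / L - 1 / 2) (α * σ / L) β t := by
  unfold thd fdlim_theta
  rw [Complex.ofReal_tsum]
  refine tsum_congr fun m => ?_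
  unfold fdlim_term
  have e1 : ((L, T) + t • (α • ((0 : ℝ), σ) + β • (L, T))).1 = L * (1 + β * t) := by
    simp; ring
  have e2 : ((L, T) + t • (α • ((0 : ℝ), σ) + β • (L, T))).2 = T * (1 + β * t) + α * σ * t := by
    simp; ring
  have e3 : -(2 * Real.pi ^ 2 * (m : ℝ) ^ 2) / (k * (L * (1 + β * t))) =
      -(2 * Real.pi ^ 2 * (m : ℝ) ^ 2) / (k * L) * (1 + β * t)⁻¹ := by
    rw [← mul_assoc, ← div_div, div_eq_mul_inv _ (1 + β * t)]
  have e4 : (T * (1 + β * t) + α * σ * t) / (L * (1 + β * t)) - 1 / 2 =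
      (T / L - 1 / 2) + α * σ / L * t * (1 + β * t)⁻¹ := by
    field_simp
    ring
  rw [e1, e2, e3, e4]
  push_cast
  ring_nf

theorem fdlim_shb (j : ℕ) (L T α β σ t : ℝ) :
    ((Real.sinh (j * ((L, T) + t • (α • (0, σ) + β • (L, T)) : ℝ × ℝ).1 / 2) /
      (j * ((L, T) + t • (α • (0, σ) + β • (L, T)) : ℝ × ℝ).1 / 2) : ℝ) : ℂ) =
      fdlim_S j L β t := by
  have e1 : ((L, T) + t • (α • ((0 : ℝ), σ) + β • (L, T))).1 = L * (1 + β * t) := by
    simp; ring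
  unfold fdlim_S
  rw [e1]
  push_cast
  rfl

/-- the holomorphic extension of `FD` along a line -/
def fdlim_G (L x₀ a β : ℝ) (t : ℂ) : ℂ :=
  4 * Complex.log (fdlim_theta 1 L x₀ a β t) + 10 * Complex.log (fdlim_theta 2 L x₀ a β t) +
    8 * Complex.log (fdlim_theta 4 L x₀ a β t) - 5 * Complex.log (fdlim_S 1 L β t) -
    7 * Complex.log (fdlim_S 4 L β t)

theorem fdlim_G_spec {L : ℝ} (hL : 0 < L) (hL1 : L ≤ 1 / 10) {a : ℝ} (ha : |a| * L ≤ 1 / 7)
    (x₀ : ℝ) {β : ℝ} (hβ : |β| ≤ 2) :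
    DifferentiableOn ℂ (fdlim_G L x₀ a β) (Metric.ball 0 (1 / 8)) ∧
    ∀ t ∈ Metric.ball (0 : ℂ) (1 / 8), ‖fdlim_G L x₀ a β t‖ ≤ 100 * L := by
  obtain ⟨d1, b1⟩ := fdlim_theta_spec (k := 1) (by norm_num) (by norm_num) hL hL1 ha x₀ hβ
  obtain ⟨d2, b2⟩ := fdlim_theta_spec (k := 2) (by norm_num) (by norm_num) hL hL1 ha x₀ hβ
  obtain ⟨d4, b4⟩ := fdlim_theta_spec (k := 4) (by norm_num) (by norm_num) hL hL1 ha x₀ hβ
  obtain ⟨D1, B1⟩ := fdlim_S_spec (j := 1) (by norm_num) (by norm_num) hL hL1 hβ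
  obtain ⟨D4, B4⟩ := fdlim_S_spec (j := 4) (by norm_num) (by norm_num) hL hL1 hβ
  have hA : 4 / 3 * L ≤ 1 / 2 := by linarith
  have hB : 5 / 2 * L ≤ 1 / 2 := by linarith
  constructor
  · unfold fdlim_G
    have l1 := d1.clog fun t ht => (fdlim_log (b1 t ht) hA).1
    have l2 := d2.clog fun t ht => (fdlim_log (b2 t ht) hA).1
    have l4 := d4.clog fun t ht => (fdlim_log (b4 t ht) hA).1
    have m1 := D1.clog fun t ht => (fdlim_log (B1 t ht) hB).1
    have m4 := D4.clog fun t ht => (fdlim_log (B4 t ht) hB).1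
    exact ((((l1.const_mul 4).add (l2.const_mul 10)).add (l4.const_mul 8)).sub
      (m1.const_mul 5)).sub (m4.const_mul 7)
  · intro t ht
    have l1 := (fdlim_log (b1 t ht) hA).2
    have l2 := (fdlim_log (b2 t ht) hA).2
    have l4 := (fdlim_log (b4 t ht) hA).2
    have m1 := (fdlim_log (B1 t ht) hB).2
    have m4 := (fdlim_log (B4 t ht) hB).2
    unfold fdlim_G
    have h1 := norm_sub_le (4 * Complex.log (fdlim_theta 1 L x₀ a β t) +
      10 * Complex.log (fdlim_theta 2 L x₀ a β t) +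
      8 * Complex.log (fdlim_theta 4 L x₀ a β t) - 5 * Complex.log (fdlim_S 1 L β t))
      (7 * Complex.log (fdlim_S 4 L β t))
    have h2 := norm_sub_le (4 * Complex.log (fdlim_theta 1 L x₀ a β t) +
      10 * Complex.log (fdlim_theta 2 L x₀ a β t) +
      8 * Complex.log (fdlim_theta 4 L x₀ a β t)) (5 * Complex.log (fdlim_S 1 L β t))
    have h3 := norm_add_le (4 * Complex.log (fdlim_theta 1 L x₀ a β t) +
      10 * Complex.log (fdlim_theta 2 L x₀ a β t)) (8 * Complex.log (fdlim_theta 4 L x₀ a β t))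
    have h4 := norm_add_le (4 * Complex.log (fdlim_theta 1 L x₀ a β t))
      (10 * Complex.log (fdlim_theta 2 L x₀ a β t))
    rw [norm_mul, norm_mul, show ‖(4 : ℂ)‖ = 4 by simp, show ‖(10 : ℂ)‖ = 10 by simp] at h4
    rw [norm_mul (8 : ℂ), show ‖(8 : ℂ)‖ = 8 by simp] at h3
    rw [norm_mul (5 : ℂ), show ‖(5 : ℂ)‖ = 5 by simp] at h2
    rw [norm_mul (7 : ℂ), show ‖(7 : ℂ)‖ = 7 by simp] at h1
    linarith

theorem fdlim_FD_eq {L : ℝ} (hL : 0 < L) (T α β σ t : ℝ) (h : 1 + β * t ≠ 0) :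
    FD ((L, T) + t • (α • (0, σ) + β • (L, T))) =
      (fdlim_G L (T / L - 1 / 2) (α * σ / L) β t).re := by
  have key : ∀ (c : ℕ) (x : ℝ), ((c : ℂ) * Complex.log (x : ℂ)).re = c * Real.log x := by
    intro c x
    rw [← Complex.ofReal_natCast, Complex.re_ofReal_mul, Complex.log_ofReal_re]
  unfold FD fdlim_G shb
  rw [← fdlim_thd 1 hL T α β σ t h, ← fdlim_thd 2 hL T α β σ t h, ← fdlim_thd 4 hL T α β σ t h,
    ← fdlim_shb 1 L T α β σ t, ← fdlim_shb 4 L T α β σ t]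
  simp only [Complex.sub_re, Complex.add_re]
  have k4 := key 4 (thd 1 ((L, T) + t • (α • (0, σ) + β • (L, T))))
  have k10 := key 10 (thd 2 ((L, T) + t • (α • (0, σ) + β • (L, T))))
  have k8 := key 8 (thd 4 ((L, T) + t • (α • (0, σ) + β • (L, T))))
  have k5 := key 5 (Real.sinh ((1 : ℕ) * ((L, T) + t • (α • (0, σ) + β • (L, T)) : ℝ × ℝ).1 / 2) /
      ((1 : ℕ) * ((L, T) + t • (α • (0, σ) + β • (L, T)) : ℝ × ℝ).1 / 2))
  have k7 := key 7 (Real.sinh ((4 : ℕ) * ((L, T) + t • (α • (0, σ) + β • (L, T)) : ℝ × ℝ).1 / 2) /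
      ((4 : ℕ) * ((L, T) + t • (α • (0, σ) + β • (L, T)) : ℝ × ℝ).1 / 2))
  simp only [Nat.cast_ofNat] at k4 k10 k8 k5 k7 ⊢
  rw [k4, k10, k8, k5, k7]

theorem fdlim_FD_smooth (hS : ST_SMF) : ContDiffOn ℝ ∞ FD {p : ℝ × ℝ | 0 < p.1} := by
  have h1 : ContDiffOn ℝ ∞ FU {p : ℝ × ℝ | 0 < p.1} := by
    intro p hp
    have hp0 : p.1 ≠ 0 := ne_of_gt hp
    refine ContDiffAt.contDiffWithinAt ?_
    unfold FU
    exact (((contDiffAt_const.mul (contDiffAt_snd.pow 2)).div contDiffAt_fst hp0).sub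
      (contDiffAt_const.mul (contDiffAt_fst.log hp0)))
  refine (hS.1.sub h1).congr ?_
  intro p _
  simp

theorem st_FDLIM (hS : ST_SMF) : ST_FDLIM := by
  intro η hη
  refine ⟨min (1 / 10) (η / 157286400), by positivity, ?_⟩
  intro L T hL hLL a b hab
  have hL1 : L ≤ 1 / 10 := (hLL.trans_le (min_le_left _ _)).le
  have hL2 : L * 157286400 ≤ η := by
    have := (hLL.trans_le (min_le_right _ _)).le
    rwa [le_div_iff₀ (by norm_num)] at this
  set σ := Real.sqrt (L / 56) with hσ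
  have hσ0 : 0 ≤ σ := Real.sqrt_nonneg _
  have hσ1 : σ ≤ 1 / 7 := by
    rw [hσ, Real.sqrt_le_left (by norm_num)]
    linarith
  have hU : IsOpen {p : ℝ × ℝ | 0 < p.1} := isOpen_lt continuous_const continuous_fst
  refine fdlim_polar hU (fdlim_FD_smooth hS) (x := (L, T)) hL (0, σ) (L, T) η ?_ a b hab
  intro n hn α β hα hβ
  have hlin := fdlim_line hU (fdlim_FD_smooth hS) (α • (0, σ) + β • (L, T)) (L, T) n 0
    (by simpa using hL)
  rw [zero_smul, add_zero] at hlin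
  rw [← hlin]
  have ha : |α * σ / L| * L ≤ 1 / 7 := by
    rw [abs_div, abs_of_pos hL, div_mul_cancel₀ _ hL.ne', abs_mul, abs_of_nonneg hσ0]
    calc |α| * σ ≤ 1 * (1 / 7) := by gcongr
      _ = 1 / 7 := by norm_num
  obtain ⟨hd, hb⟩ := fdlim_G_spec hL hL1 ha (T / L - 1 / 2) hβ
  refine (fdlim_cauchy hd hb ?_ n hn).trans (by linarith)
  intro t ht
  refine fdlim_FD_eq hL T α β σ t ?_
  have : |β * t| ≤ 1 / 4 := by
    rw [abs_mul]
    nlinarith [abs_nonneg β, abs_nonneg t]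
  intro h0
  rw [abs_le] at this
  linarith [this.1]

end RicP
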