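import Pool.Agent.Helper88.Ric.Stmts

set_option autoImplicit false

/-!
# Ric, module FDLIM, part A: mixed directional derivatives from pure ones
-/

open scoped ContDiff Topology

noncomputable section

namespace RicP

theorem fdlim_Dd_smooth {U : Set (ℝ × ℝ)} (hU : IsOpen U) {f : ℝ × ℝ → ℝ}
    (hf : ContDiffOn ℝ ∞ f U) (b : ℝ × ℝ) : ContDiffOn ℝ ∞ (Dd b f) U := by
  have h1 : ContDiffOn ℝ ∞ (fderiv ℝ f) U := hf.fderiv_of_isOpen hU (by simp)
  exact h1.clm_apply contDiffOn_const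

theorem fdlim_Dd_congr {U : Set (ℝ × ℝ)} (hU : IsOpen U) {f g : ℝ × ℝ → ℝ}
    (h : ∀ x ∈ U, f x = g x) (b : ℝ × ℝ) : ∀ x ∈ U, Dd b f x = Dd b g x := by
  intro x hx
  have h1 : f =ᶠ[𝓝 x] g := by
    filter_upwards [hU.mem_nhds hx] with y hy using h y hy
  unfold Dd
  rw [h1.fderiv_eq]

theorem fdlim_iter_smooth {U : Set (ℝ × ℝ)} (hU : IsOpen U) {f : ℝ × ℝ → ℝ}
    (hf : ContDiffOn ℝ ∞ f U) (b : ℝ × ℝ) (n : ℕ) : ContDiffOn ℝ ∞ ((Dd b)^[n] f) U := by
  induction n with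
  | zero => exact hf
  | succ n ih => rw [Function.iterate_succ_apply']; exact fdlim_Dd_smooth hU ih b

theorem fdlim_iter_congr {U : Set (ℝ × ℝ)} (hU : IsOpen U) {f g : ℝ × ℝ → ℝ}
    (h : ∀ x ∈ U, f x = g x) (b : ℝ × ℝ) (n : ℕ) :
    ∀ x ∈ U, (Dd b)^[n] f x = (Dd b)^[n] g x := by
  induction n with
  | zero => exact h
  | succ n ih =>
    rw [Function.iterate_succ_apply', Function.iterate_succ_apply']
    exact fdlim_Dd_congr hU ih b

/-- functions smooth on `U` and zero outside -/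
def fdlim_V (U : Set (ℝ × ℝ)) : Submodule ℝ (ℝ × ℝ → ℝ) where
  carrier := {f | ContDiffOn ℝ ∞ f U ∧ ∀ x ∉ U, f x = 0}
  zero_mem' := ⟨contDiffOn_const, fun _ _ => rfl⟩
  add_mem' := fun {f g} hf hg => ⟨hf.1.add hg.1, fun x hx => by
    simp [hf.2 x hx, hg.2 x hx]⟩
  smul_mem' := fun c f hf => ⟨contDiffOn_const.smul hf.1, fun x hx => by
    simp [hf.2 x hx]⟩

open Classical in
/-- cut a function to `U` -/
def fdlim_cut (U : Set (ℝ × ℝ)) (f : ℝ × ℝ → ℝ) : ℝ × ℝ → ℝ := fun x => if x ∈ U then f x else 0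

theorem fdlim_cut_in {U : Set (ℝ × ℝ)} (f : ℝ × ℝ → ℝ) {x : ℝ × ℝ} (hx : x ∈ U) :
    fdlim_cut U f x = f x := by
  unfold fdlim_cut; rw [if_pos hx]

theorem fdlim_cut_out {U : Set (ℝ × ℝ)} (f : ℝ × ℝ → ℝ) {x : ℝ × ℝ} (hx : x ∉ U) :
    fdlim_cut U f x = 0 := by
  unfold fdlim_cut; rw [if_neg hx]

theorem fdlim_cut_mem {U : Set (ℝ × ℝ)} {f : ℝ × ℝ → ℝ} (hf : ContDiffOn ℝ ∞ f U) :
    fdlim_cut U f ∈ fdlim_V U :=
  ⟨hf.congr fun _ hx => fdlim_cut_in f hx, fun _ hx => fdlim_cut_out f hx⟩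

/-- the derivative in the direction `b` as an operator -/
def fdlim_X {U : Set (ℝ × ℝ)} (hU : IsOpen U) (b : ℝ × ℝ) : Module.End ℝ (fdlim_V U) where
  toFun f := ⟨fdlim_cut U (Dd b f.1), fdlim_cut_mem (fdlim_Dd_smooth hU f.2.1 b)⟩
  map_add' f g := by
    apply Subtype.ext
    funext x
    change fdlim_cut U (Dd b (f.1 + g.1)) x = fdlim_cut U (Dd b f.1) x + fdlim_cut U (Dd b g.1) x
    by_cases hx : x ∈ U
    · rw [fdlim_cut_in _ hx, fdlim_cut_in _ hx, fdlim_cut_in _ hx]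
      have hf : DifferentiableAt ℝ f.1 x :=
        (f.2.1.contDiffAt (hU.mem_nhds hx)).differentiableAt (by simp)
      have hg : DifferentiableAt ℝ g.1 x :=
        (g.2.1.contDiffAt (hU.mem_nhds hx)).differentiableAt (by simp)
      unfold Dd
      rw [fderiv_add hf hg]
      rfl
    · rw [fdlim_cut_out _ hx, fdlim_cut_out _ hx, fdlim_cut_out _ hx, add_zero]
  map_smul' c f := by
    apply Subtype.ext
    funext x
    change fdlim_cut U (Dd b (c • f.1)) x = c * fdlim_cut U (Dd b f.1) x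
    by_cases hx : x ∈ U
    · rw [fdlim_cut_in _ hx, fdlim_cut_in _ hx]
      have hf : DifferentiableAt ℝ f.1 x :=
        (f.2.1.contDiffAt (hU.mem_nhds hx)).differentiableAt (by simp)
      unfold Dd
      rw [fderiv_const_smul hf]
      rfl
    · rw [fdlim_cut_out _ hx, fdlim_cut_out _ hx, mul_zero]

theorem fdlim_X_val {U : Set (ℝ × ℝ)} (hU : IsOpen U) (b : ℝ × ℝ) (f : fdlim_V U) :
    (fdlim_X hU b f).1 = fdlim_cut U (Dd b f.1) := rfl

theorem fdlim_X_add {U : Set (ℝ × ℝ)} (hU : IsOpen U) (b b' : ℝ × ℝ) :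
    fdlim_X hU (b + b') = fdlim_X hU b + fdlim_X hU b' := by
  apply LinearMap.ext
  intro f
  apply Subtype.ext
  funext x
  change fdlim_cut U (Dd (b + b') f.1) x = fdlim_cut U (Dd b f.1) x + fdlim_cut U (Dd b' f.1) x
  by_cases hx : x ∈ U
  · rw [fdlim_cut_in _ hx, fdlim_cut_in _ hx, fdlim_cut_in _ hx]
    unfold Dd
    rw [map_add]
  · rw [fdlim_cut_out _ hx, fdlim_cut_out _ hx, fdlim_cut_out _ hx, add_zero]

theorem fdlim_X_smul {U : Set (ℝ × ℝ)} (hU : IsOpen U) (c : ℝ) (b : ℝ × ℝ) :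
    fdlim_X hU (c • b) = c • fdlim_X hU b := by
  apply LinearMap.ext
  intro f
  apply Subtype.ext
  funext x
  change fdlim_cut U (Dd (c • b) f.1) x = c * fdlim_cut U (Dd b f.1) x
  by_cases hx : x ∈ U
  · rw [fdlim_cut_in _ hx, fdlim_cut_in _ hx]
    unfold Dd
    rw [map_smul]
    rfl
  · rw [fdlim_cut_out _ hx, fdlim_cut_out _ hx, mul_zero]

theorem fdlim_X_comm {U : Set (ℝ × ℝ)} (hU : IsOpen U) (b b' : ℝ × ℝ) :
    Commute (fdlim_X hU b) (fdlim_X hU b') := by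
  apply LinearMap.ext
  intro f
  apply Subtype.ext
  funext x
  change fdlim_cut U (Dd b (fdlim_cut U (Dd b' f.1))) x =
    fdlim_cut U (Dd b' (fdlim_cut U (Dd b f.1))) x
  by_cases hx : x ∈ U
  · rw [fdlim_cut_in _ hx, fdlim_cut_in _ hx,
      fdlim_Dd_congr hU (fun y hy => fdlim_cut_in _ hy) b x hx,
      fdlim_Dd_congr hU (fun y hy => fdlim_cut_in _ hy) b' x hx]
    have hf : ContDiffAt ℝ ∞ f.1 x := f.2.1.contDiffAt (hU.mem_nhds hx)
    have hs : IsSymmSndFDerivAt ℝ f.1 x := hf.isSymmSndFDerivAt (by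
      rw [minSmoothness_of_isRCLikeNormedField]
      exact WithTop.coe_le_coe.2 (le_top : (2 : ℕ∞) ≤ ⊤))
    have hd : DifferentiableAt ℝ (fderiv ℝ f.1) x :=
      (hf.fderiv_right (m := ∞) (by simp)).differentiableAt (by simp)
    have key : ∀ c c' : ℝ × ℝ, Dd c (Dd c' f.1) x = fderiv ℝ (fderiv ℝ f.1) x c c' := by
      intro c c'
      change fderiv ℝ (fun y => fderiv ℝ f.1 y c') x c = _
      rw [fderiv_clm_apply hd (differentiableAt_const c')]
      simp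
    rw [key, key]
    exact hs b b'
  · rw [fdlim_cut_out _ hx, fdlim_cut_out _ hx]

theorem fdlim_X_pow {U : Set (ℝ × ℝ)} (hU : IsOpen U) (b : ℝ × ℝ) (n : ℕ) (f : fdlim_V U) :
    ∀ x ∈ U, ((fdlim_X hU b ^ n) f).1 x = (Dd b)^[n] f.1 x := by
  induction n with
  | zero => intro x _; rfl
  | succ n ih =>
    intro x hx
    rw [pow_succ', Function.iterate_succ_apply']
    change fdlim_cut U (Dd b ((fdlim_X hU b ^ n) f).1) x = _
    rw [fdlim_cut_in _ hx]
    exact fdlim_Dd_congr hU ih b x hx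

theorem fdlim_X_mix {U : Set (ℝ × ℝ)} (hU : IsOpen U) (b b' : ℝ × ℝ) (a c : ℕ)
    {f : ℝ × ℝ → ℝ} (hf : ContDiffOn ℝ ∞ f U) {x : ℝ × ℝ} (hx : x ∈ U) :
    ((fdlim_X hU b ^ a * fdlim_X hU b' ^ c) ⟨fdlim_cut U f, fdlim_cut_mem hf⟩).1 x =
      (Dd b)^[a] ((Dd b')^[c] f) x := by
  change ((fdlim_X hU b ^ a) ((fdlim_X hU b' ^ c) ⟨fdlim_cut U f, fdlim_cut_mem hf⟩)).1 x = _
  rw [fdlim_X_pow hU b a _ x hx]
  refine fdlim_iter_congr hU ?_ b a x hx
  intro y hy
  rw [fdlim_X_pow hU b' c _ y hy]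
  exact fdlim_iter_congr hU (fun z hz => fdlim_cut_in f hz) b' c y hy

/-- Mixed derivatives of order at most four are bounded by pure ones. -/
theorem fdlim_polar {U : Set (ℝ × ℝ)} (hU : IsOpen U) {f : ℝ × ℝ → ℝ}
    (hf : ContDiffOn ℝ ∞ f U) {x : ℝ × ℝ} (hx : x ∈ U) (b b' : ℝ × ℝ) (K : ℝ)
    (h : ∀ n ≤ 4, ∀ α β : ℝ, |α| ≤ 1 → |β| ≤ 2 → |(Dd (α • b + β • b'))^[n] f x| ≤ K) :
    ∀ a c : ℕ, a + c ≤ 4 → |(Dd b)^[a] ((Dd b')^[c] f) x| ≤ K := by
  set F : fdlim_V U := ⟨fdlim_cut U f, fdlim_cut_mem hf⟩ with hF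
  set X := fdlim_X hU b with hX
  set Y := fdlim_X hU b' with hY
  set m : ℕ → ℕ → ℝ := fun a c => (Dd b)^[a] ((Dd b')^[c] f) x with hm
  have hXY : ∀ a c, ((X ^ a * Y ^ c) F).1 x = m a c := fun a c =>
    fdlim_X_mix hU b b' a c hf hx
  -- pure derivatives
  have hp : ∀ n (α β : ℝ), (Dd (α • b + β • b'))^[n] f x =
      ∑ k ∈ Finset.range (n + 1), α ^ k * β ^ (n - k) * (n.choose k : ℝ) * m k (n - k) := by
    intro n α β
    have h1 : ((fdlim_X hU (α • b + β • b') ^ n) F).1 x = (Dd (α • b + β • b'))^[n] f x := by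
      rw [fdlim_X_pow hU _ n _ x hx]
      exact fdlim_iter_congr hU (fun z hz => fdlim_cut_in f hz) _ n x hx
    have hc : Commute (α • X) (β • Y) :=
      ((fdlim_X_comm hU b b').smul_left α).smul_right β
    rw [← h1, fdlim_X_add, fdlim_X_smul, fdlim_X_smul, hc.add_pow]
    have h2 : ∀ k, ((α • X) ^ k * (β • Y) ^ (n - k) * ((n.choose k : ℕ) : Module.End ℝ (fdlim_V U)))
        = (α ^ k * β ^ (n - k) * (n.choose k : ℝ)) • (X ^ k * Y ^ (n - k)) := by
      intro k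
      rw [smul_pow, smul_pow, smul_mul_smul_comm, ← nsmul_eq_mul', ← Nat.cast_smul_eq_nsmul ℝ,
        smul_smul]
      congr 1
      ring
    rw [Finset.sum_congr rfl fun k _ => h2 k, LinearMap.sum_apply]
    have h3 : ∀ s : Finset ℕ, (∑ k ∈ s, ((α ^ k * β ^ (n - k) * (n.choose k : ℝ)) •
        (X ^ k * Y ^ (n - k))) F : fdlim_V U).1 x =
        ∑ k ∈ s, α ^ k * β ^ (n - k) * (n.choose k : ℝ) * m k (n - k) := by
      intro s
      classical
      induction s using Finset.induction_on with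
      | empty => simp
      | insert k s hk ih =>
        rw [Finset.sum_insert hk, Finset.sum_insert hk, ← ih, ← hXY k (n - k)]
        rfl
    exact h3 _
  have g : ∀ n ≤ 4, ∀ α β : ℝ, |α| ≤ 1 → |β| ≤ 2 →
      |∑ k ∈ Finset.range (n + 1), α ^ k * β ^ (n - k) * (n.choose k : ℝ) * m k (n - k)| ≤ K := by
    intro n hn α β hα hβ
    rw [← hp]
    exact h n hn α β hα hβ
  have e0 := g 0 (by norm_num) 1 0 (by norm_num) (by norm_num)
  have e1a := g 1 (by norm_num) 1 0 (by norm_num) (by norm_num)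
  have e1b := g 1 (by norm_num) 0 1 (by norm_num) (by norm_num)
  have e2a := g 2 (by norm_num) 1 0 (by norm_num) (by norm_num)
  have e2b := g 2 (by norm_num) 0 1 (by norm_num) (by norm_num)
  have e2c := g 2 (by norm_num) 1 1 (by norm_num) (by norm_num)
  have e2d := g 2 (by norm_num) 1 (-1) (by norm_num) (by norm_num)
  have e3a := g 3 (by norm_num) 1 0 (by norm_num) (by norm_num)
  have e3b := g 3 (by norm_num) 0 1 (by norm_num) (by norm_num)
  have e3c := g 3 (by norm_num) 1 1 (by norm_num) (by norm_num)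
  have e3d := g 3 (by norm_num) 1 (-1) (by norm_num) (by norm_num)
  have e4a := g 4 (by norm_num) 1 0 (by norm_num) (by norm_num)
  have e4b := g 4 (by norm_num) 0 1 (by norm_num) (by norm_num)
  have e4c := g 4 (by norm_num) 1 1 (by norm_num) (by norm_num)
  have e4d := g 4 (by norm_num) 1 (-1) (by norm_num) (by norm_num)
  have e4e := g 4 (by norm_num) 1 2 (by norm_num) (by norm_num)
  have e4f := g 4 (by norm_num) 1 (-2) (by norm_num) (by norm_num)
  simp only [Finset.sum_range_succ, Finset.sum_range_zero, Nat.choose, zero_add, Nat.sub_self,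
    pow_zero, one_pow, Nat.cast_one, Nat.cast_ofNat, Nat.reduceAdd, Nat.reduceSub, abs_le,
    Nat.sub_zero, one_mul, mul_one, zero_pow (two_ne_zero),
    zero_pow (three_ne_zero), zero_pow (four_ne_zero), pow_one, zero_mul, add_zero] at e0 e1a e1b e2a e2b e2c e2d e3a e3b e3c e3d e4a e4b e4c e4d e4e e4f
  norm_num at e0 e1a e1b e2a e2b e2c e2d e3a e3b e3c e3d e4a e4b e4c e4d e4e e4f
  intro a c hac
  have hgoal : |m a c| ≤ K := by
    have ha : a ≤ 4 := by omega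
    have hc : c ≤ 4 := by omega
    interval_cases a <;> interval_cases c <;> first
      | omega
      | (rw [abs_le]; constructor <;> linarith [e0.1, e0.2, e1a.1, e1a.2, e1b.1, e1b.2, e2a.1,
          e2a.2, e2b.1, e2b.2, e2c.1, e2c.2, e2d.1, e2d.2, e3a.1, e3a.2, e3b.1, e3b.2, e3c.1,
          e3c.2, e3d.1, e3d.2, e4a.1, e4a.2, e4b.1, e4b.2, e4c.1, e4c.2, e4d.1, e4d.2, e4e.1,
          e4e.2, e4f.1, e4f.2])
  exact hgoal

end RicP
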