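import Pool.Agent.Helper99.Ric.FDLIMA

set_option autoImplicit false

/-!
# Ric, module FDLIM, part B: restriction to complex lines and the Cauchy bound
-/

open scoped ContDiff Topology
open Complex (I)

noncomputable section

namespace RicP

/-- derivatives along a line -/
theorem fdlim_line {U : Set (ℝ × ℝ)} (hU : IsOpen U) {f : ℝ × ℝ → ℝ}
    (hf : ContDiffOn ℝ ∞ f U) (v x : ℝ × ℝ) (n : ℕ) : ∀ t : ℝ, x + t • v ∈ U →
      iteratedDeriv n (fun s : ℝ => f (x + s • v)) t = (Dd v)^[n] f (x + t • v) := by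
  induction n with
  | zero => intro t _; simp
  | succ n ih =>
    intro t ht
    rw [iteratedDeriv_succ, Function.iterate_succ_apply']
    have hc : Continuous (fun s : ℝ => x + s • v) := by fun_prop
    have he : iteratedDeriv n (fun s : ℝ => f (x + s • v)) =ᶠ[𝓝 t]
        fun s : ℝ => (Dd v)^[n] f (x + s • v) := by
      filter_upwards [hc.continuousAt.preimage_mem_nhds (hU.mem_nhds ht)] with s hs using ih s hs
    rw [he.deriv_eq]
    have hd : DifferentiableAt ℝ ((Dd v)^[n] f) (x + t • v) :=
      ((fdlim_iter_smooth hU hf v n).contDiffAt (hU.mem_nhds ht)).differentiableAt (by simp)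
    have h1 : HasDerivAt (fun s : ℝ => x + s • v) v t := by
      have := ((hasDerivAt_id t).smul_const v).const_add x
      simpa using this
    have h2 := hd.hasFDerivAt.comp_hasDerivAt t h1
    rw [show (fun s : ℝ => (Dd v)^[n] f (x + s • v)) = (Dd v)^[n] f ∘ fun s : ℝ => x + s • v from
      rfl, h2.deriv]
    rfl

/-- derivatives of the real part of a holomorphic function along the real line -/
theorem fdlim_re {R : ℝ} {G : ℂ → ℂ} (hG : DifferentiableOn ℂ G (Metric.ball 0 R))
    {f : ℝ → ℝ} (hf : ∀ t : ℝ, |t| < R → f t = (G t).re) (n : ℕ) :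
    ∀ t : ℝ, |t| < R → iteratedDeriv n f t = (iteratedDeriv n G t).re := by
  induction n with
  | zero => intro t ht; simpa using hf t ht
  | succ n ih =>
    intro t ht
    rw [iteratedDeriv_succ, iteratedDeriv_succ]
    have he : iteratedDeriv n f =ᶠ[𝓝 t] fun s : ℝ => (iteratedDeriv n G s).re := by
      have : {s : ℝ | |s| < R} ∈ 𝓝 t :=
        (isOpen_lt continuous_abs continuous_const).mem_nhds ht
      filter_upwards [this] with s hs using ih s hs
    rw [he.deriv_eq]
    have ha : AnalyticOnNhd ℂ (iteratedDeriv n G) (Metric.ball 0 R) := by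
      rw [iteratedDeriv_eq_iterate]
      exact (hG.analyticOnNhd Metric.isOpen_ball).iterated_deriv n
    have hd : DifferentiableAt ℂ (iteratedDeriv n G) (t : ℂ) :=
      (ha (t : ℂ) (by simpa using ht)).differentiableAt
    exact hd.hasDerivAt.real_of_complex.deriv

/-- Cauchy bound -/
theorem fdlim_cauchy {G : ℂ → ℂ} (hG : DifferentiableOn ℂ G (Metric.ball 0 (1 / 8))) {B : ℝ}
    (hB : ∀ t ∈ Metric.ball (0 : ℂ) (1 / 8), ‖G t‖ ≤ B)
    {f : ℝ → ℝ} (hf : ∀ t : ℝ, |t| < 1 / 8 → f t = (G t).re) (n : ℕ) (hn : n ≤ 4) :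
    |iteratedDeriv n f 0| ≤ 1572864 * B := by
  have hB0 : 0 ≤ B := (norm_nonneg _).trans (hB 0 (by simp))
  rw [fdlim_re hG hf n 0 (by norm_num)]
  refine (Complex.abs_re_le_norm _).trans ?_
  have h1 : ‖iteratedDeriv n G ((0 : ℝ) : ℂ)‖ ≤ n.factorial * B / (1 / 16) ^ n := by
    rw [Complex.ofReal_zero]
    refine Complex.norm_iteratedDeriv_le_of_forall_mem_sphere_norm_le n (by norm_num) ?_ ?_
    · refine (hG.mono ?_).diffContOnCl
      rw [closure_ball _ (by norm_num)]
      exact Metric.closedBall_subset_ball (by norm_num)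
    · intro z hz
      refine hB z ?_
      rw [mem_sphere_zero_iff_norm] at hz
      rw [mem_ball_zero_iff, hz]
      norm_num
  refine h1.trans ?_
  rw [div_le_iff₀ (by positivity)]
  interval_cases n <;> norm_num [Nat.factorial] <;> nlinarith

end RicP
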