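import Pool.Agent.Helper99.Ric.FDLIMB

set_option autoImplicit false

/-!
# Ric, module FDLIM, part C: the theta series on complex lines
-/

open scoped ContDiff Topology

noncomputable section

namespace RicP

theorem fdlim_w (u : ℂ) (hu : ‖u‖ ≤ 1 / 4) :
    1 + u ≠ 0 ∧ 4 / 5 ≤ ((1 + u)⁻¹).re ∧ ‖(1 + u)⁻¹‖ ≤ 4 / 3 := by
  have h1 : 3 / 4 ≤ ‖1 + u‖ := by
    have : ‖(1 : ℂ)‖ - ‖u‖ ≤ ‖1 + u‖ := by
      have := norm_sub_norm_le (1 : ℂ) (-u)
      rwa [norm_neg, sub_neg_eq_add] at this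
    rw [norm_one] at this
    linarith
  have h0 : 1 + u ≠ 0 := by
    intro h
    rw [h, norm_zero] at h1
    linarith
  refine ⟨h0, ?_, ?_⟩
  · rw [Complex.inv_re]
    have hp : 0 < Complex.normSq (1 + u) := Complex.normSq_pos.2 h0
    rw [le_div_iff₀ hp]
    have h2 : Complex.normSq u ≤ 1 / 16 := by
      rw [Complex.normSq_eq_norm_sq]
      nlinarith [norm_nonneg u]
    rw [Complex.normSq_apply] at h2 ⊢
    simp only [Complex.add_re, Complex.one_re, Complex.add_im, Complex.one_im, zero_add]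
    have h3 : -(1 / 4) ≤ u.re := by nlinarith [sq_nonneg u.im, sq_nonneg (u.re - 1/4)]
    have h4 : u.re ≤ 1 / 4 := by nlinarith [sq_nonneg u.im, sq_nonneg (u.re + 1/4)]
    nlinarith
  · rw [norm_inv]
    calc ‖1 + u‖⁻¹ ≤ (3 / 4)⁻¹ := inv_anti₀ (by norm_num) h1
      _ = 4 / 3 := by norm_num

theorem fdlim_cos (z : ℂ) : ‖Complex.cos z‖ ≤ Real.exp |z.im| := by
  unfold Complex.cos
  rw [norm_div]
  have h1 : ‖Complex.exp (z * Complex.I)‖ ≤ Real.exp |z.im| := by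
    rw [Complex.norm_exp]
    apply Real.exp_le_exp.2
    simp
    exact neg_le_abs _
  have h2 : ‖Complex.exp (-z * Complex.I)‖ ≤ Real.exp |z.im| := by
    rw [Complex.norm_exp]
    apply Real.exp_le_exp.2
    simp
    exact le_abs_self _
  have h3 := norm_add_le (Complex.exp (z * Complex.I)) (Complex.exp (-z * Complex.I))
  rw [show ‖(2 : ℂ)‖ = 2 by simp]
  linarith

/-- a term of the theta series on a complex line -/
def fdlim_term (k : ℕ) (L x₀ a β : ℝ) (m : ℤ) (t : ℂ) : ℂ :=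
  Complex.exp (-(2 * (Real.pi : ℂ) ^ 2 * (m : ℂ) ^ 2) / (k * L) * (1 + β * t)⁻¹) *
    Complex.cos (2 * (Real.pi : ℂ) * m * (x₀ + a * t * (1 + β * t)⁻¹))

theorem fdlim_bt {β : ℝ} (hβ : |β| ≤ 2) {t : ℂ} (ht : t ∈ Metric.ball (0 : ℂ) (1 / 8)) :
    ‖(β : ℂ) * t‖ ≤ 1 / 4 := by
  rw [mem_ball_zero_iff] at ht
  rw [norm_mul, Complex.norm_real, Real.norm_eq_abs]
  nlinarith [abs_nonneg β, norm_nonneg t]

theorem fdlim_term_le {k : ℕ} (hk : 1 ≤ k) (hk4 : k ≤ 4) {L : ℝ} (hL : 0 < L)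
    {a : ℝ} (ha : |a| * L ≤ 1 / 7) (x₀ : ℝ) {β : ℝ} (hβ : |β| ≤ 2) (m : ℤ) {t : ℂ}
    (ht : t ∈ Metric.ball (0 : ℂ) (1 / 8)) :
    ‖fdlim_term k L x₀ a β m t‖ ≤ Real.exp (-(3 / L)) ^ m.natAbs := by
  obtain ⟨h0, h1, h2⟩ := fdlim_w _ (fdlim_bt hβ ht)
  set w : ℂ := (1 + (β : ℂ) * t)⁻¹ with hw
  have hkp : (0 : ℝ) < k := by exact_mod_cast hk
  have hk4' : (k : ℝ) ≤ 4 := by exact_mod_cast hk4
  have hpi : 9.8 ≤ Real.pi ^ 2 := by nlinarith [Real.pi_gt_d2]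
  have hpi2 : Real.pi ≤ 3.15 := Real.pi_lt_d2.le
  have hm : ((m.natAbs : ℕ) : ℝ) = |(m : ℝ)| := by
    rw [Nat.cast_natAbs, Int.cast_abs]
  have hmsq : |(m : ℝ)| ≤ (m : ℝ) ^ 2 := by
    have : |m| ≤ m ^ 2 := by
      rw [← sq_abs]
      nlinarith [abs_nonneg m, Int.le_self_sq |m|]
    exact_mod_cast this
  unfold fdlim_term
  rw [norm_mul, Complex.norm_exp, ← Real.exp_nat_mul]
  have e1 : ((-(2 * (Real.pi : ℂ) ^ 2 * (m : ℂ) ^ 2) / (k * L) * w)).re =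
      -(2 * Real.pi ^ 2 * (m : ℝ) ^ 2) / (k * L) * w.re := by
    have : (-(2 * (Real.pi : ℂ) ^ 2 * (m : ℂ) ^ 2) / (k * L) * w) =
        ((-(2 * Real.pi ^ 2 * (m : ℝ) ^ 2) / (k * L) : ℝ) : ℂ) * w := by
      push_cast; ring
    rw [this, Complex.re_ofReal_mul]
  have e2 : -(2 * Real.pi ^ 2 * (m : ℝ) ^ 2) / (k * L) * w.re ≤ -(3.92 * |(m : ℝ)|) / L := by
    have hX : 3.92 * |(m : ℝ)| / L ≤ (2 * Real.pi ^ 2 * (m : ℝ) ^ 2) / (k * L) * w.re := by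
      have hA : 0 ≤ (2 * Real.pi ^ 2 * (m : ℝ) ^ 2) / (k * L) := by positivity
      calc 3.92 * |(m : ℝ)| / L ≤ (2 * 9.8 * (m : ℝ) ^ 2) / (4 * L) * (4 / 5) := by
            rw [div_mul_eq_mul_div, div_le_div_iff₀ hL (by positivity)]
            nlinarith
        _ ≤ (2 * Real.pi ^ 2 * (m : ℝ) ^ 2) / (k * L) * (4 / 5) := by
            gcongr
        _ ≤ (2 * Real.pi ^ 2 * (m : ℝ) ^ 2) / (k * L) * w.re := by
            gcongr
    have e3 : -(2 * Real.pi ^ 2 * (m : ℝ) ^ 2) / (k * L) * w.re =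
        -((2 * Real.pi ^ 2 * (m : ℝ) ^ 2) / (k * L) * w.re) := by ring
    rw [e3, neg_div]
    exact neg_le_neg hX
  have e4 : ‖Complex.cos (2 * (Real.pi : ℂ) * m * (x₀ + a * t * w))‖ ≤
      Real.exp (0.92 * |(m : ℝ)| / L) := by
    refine (fdlim_cos _).trans (Real.exp_le_exp.2 ?_)
    have e5 : (2 * (Real.pi : ℂ) * m * (x₀ + a * t * w)).im =
        (((2 * Real.pi * m * a : ℝ) : ℂ) * (t * w)).im := by
      have : 2 * (Real.pi : ℂ) * m * (x₀ + a * t * w) =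
        ((2 * Real.pi * m * x₀ : ℝ) : ℂ) + ((2 * Real.pi * m * a : ℝ) : ℂ) * (t * w) := by
        push_cast; ring
      rw [this, Complex.add_im, Complex.ofReal_im, zero_add]
    rw [e5]
    refine (Complex.abs_im_le_norm _).trans ?_
    rw [norm_mul, Complex.norm_real, Real.norm_eq_abs, norm_mul]
    rw [mem_ball_zero_iff] at ht
    have e6 : ‖t‖ * ‖w‖ ≤ 1 / 8 * (4 / 3) := by gcongr
    have e7 : |2 * Real.pi * (m : ℝ) * a| ≤ 2 * 3.15 * |(m : ℝ)| * |a| := by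
      rw [abs_mul, abs_mul, abs_mul, abs_of_pos Real.pi_pos, abs_two]
      gcongr
    calc |2 * Real.pi * (m : ℝ) * a| * (‖t‖ * ‖w‖)
        ≤ (2 * 3.15 * |(m : ℝ)| * |a|) * (1 / 8 * (4 / 3)) := by gcongr
      _ ≤ 0.92 * |(m : ℝ)| / L := by
        rw [le_div_iff₀ hL]
        have := mul_le_mul_of_nonneg_left ha (abs_nonneg (m : ℝ))
        nlinarith [abs_nonneg (m : ℝ)]
  rw [e1]
  calc Real.exp (-(2 * Real.pi ^ 2 * (m : ℝ) ^ 2) / (k * L) * w.re) *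
        ‖Complex.cos (2 * (Real.pi : ℂ) * m * (x₀ + a * t * w))‖
      ≤ Real.exp (-(3.92 * |(m : ℝ)|) / L) * Real.exp (0.92 * |(m : ℝ)| / L) := by gcongr
    _ = Real.exp ((m.natAbs : ℕ) * -(3 / L)) := by
      rw [← Real.exp_add, hm]
      congr 1
      ring

theorem fdlim_q {L : ℝ} (hL : 0 < L) (hL1 : L ≤ 1 / 10) :
    0 < Real.exp (-(3 / L)) ∧ Real.exp (-(3 / L)) ≤ L / 3 := by
  refine ⟨Real.exp_pos _, ?_⟩
  have h1 : 3 / L ≤ Real.exp (3 / L) := by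
    have := Real.add_one_le_exp (3 / L)
    linarith
  rw [Real.exp_neg]
  calc (Real.exp (3 / L))⁻¹ ≤ (3 / L)⁻¹ := inv_anti₀ (by positivity) h1
    _ = L / 3 := by rw [inv_div]

theorem fdlim_hs {q : ℝ} (h0 : 0 < q) (h1 : q < 1) :
    HasSum (fun m : ℤ => if m = 0 then 0 else q ^ m.natAbs) (q / (1 - q) + q / (1 - q)) := by
  have hg : HasSum (fun n : ℕ => q ^ (n + 1)) (q / (1 - q)) := by
    have := (hasSum_geometric_of_lt_one h0.le h1).mul_left q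
    simp only [← pow_succ'] at this
    rwa [← div_eq_mul_inv] at this
  refine HasSum.of_nat_of_neg_add_one ?_ ?_
  · rw [← hasSum_nat_add_iff' 1]
    simp only [Finset.sum_range_one, Nat.cast_zero, if_true, sub_zero]
    refine hg.congr_fun ?_
    intro n
    have : ((n + 1 : ℕ) : ℤ) ≠ 0 := by positivity
    rw [if_neg this, Int.natAbs_natCast]
  · refine hg.congr_fun ?_
    intro n
    have : -((n : ℤ) + 1) ≠ 0 := by omega
    rw [if_neg this]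
    congr 1

end RicP
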